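import Mathlib
import Pool.Agent.helper49.TwoTransU

set_option autoImplicit false

namespace Pool.Agent.Results.MP_b93de1_al.TwoTransitiveNoRep

universe u v

/-- The answer to Q1 is no. There are an infinite field `K` of characteristic two and a group `G` of
permutations of `K`, containing all affine maps and consisting of semi-affine maps, which is
two-transitive and locally soluble (so its point stabilizers are locally soluble), such that every
finite-dimensional representation of `G` over every field, irreducible or not, is trivial. -/
theorem result :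
    ∃ (K : Type) (_ : Field K) (G : Subgroup (Equiv.Perm K)),
      CharP K 2 ∧ Infinite K ∧ Infinite G ∧
      (∀ c d : K, c ≠ 0 → ∃ g ∈ G, ∀ y : K, g y = c * y + d) ∧
      (∀ g ∈ G, ∃ (σ : K ≃+* K) (c d : K), c ≠ 0 ∧ ∀ y : K, g y = c * σ y + d) ∧
      (∀ a b a' b' : K, a ≠ b → a' ≠ b' → ∃ g ∈ G, g a = a' ∧ g b = b') ∧
      (∀ H : Subgroup G, H.FG → Group.IsSolvable H) ∧
      (∀ (x : K) (H : Subgroup (MulAction.stabilizer G x)), H.FG → Group.IsSolvable H) ∧
      ∀ (F : Type u) (V : Type v) [Field F] [AddCommGroup V] [Module F V]
        [FiniteDimensional F V] (ρ : Representation F G V) (g : G), ρ g = 1 :=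
  Pool.Agent.helper49.TwoTransU.main

end Pool.Agent.Results.MP_b93de1_al.TwoTransitiveNoRep
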